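import Pool.Agent.K1H93.QF.Small
import Pool.Agent.W860.OB.Gap

/-!
# The theorem for dense subsets of translates of sets of small doubling
-/

set_option autoImplicit false

namespace Pool.Agent.K1H93.QF

open Finset
open scoped Pointwise

theorem scov : SCov := by
  intro K hK
  refine ⟨max 1 (max (Real.exp (4000000 / (1 : ℝ) ^ 2 * Real.log (2 * K) ^ ((1 : ℝ) + 1))) ((2 * K) ^ ((30000 : ℝ) / 1))),
    30000 / 1 * Real.log (2 * K), le_max_left _ _, fun p hp A hA hAK => ?_⟩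
  classical
  have : Fact p.Prime := ⟨hp⟩
  obtain ⟨k, v, L, H, T, hk, -, hvol, hT, hc⟩ := W860.OB.gap_cover hA hAK (ε₀ := 1) one_pos le_rfl
  refine ⟨k, v, L, H, T, hk, hvol.trans ?_, hT.trans ((le_max_right _ _).trans (le_max_right _ _)), hc⟩
  refine mul_le_mul_of_nonneg_right ((le_max_left _ _).trans (le_max_right _ _)) (Nat.cast_nonneg _)

theorem grow {p : ℕ} (D I A : Finset (ZMod p)) (x : ZMod p) (h : A ⊆ D.image fun u => u + x) :
    (A + I).card ≤ (D + I).card := by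
  classical
  have h1 : A + I ⊆ (D + I).image fun u => u + x := by
    intro y hy
    obtain ⟨a, ha, i, hi, rfl⟩ := mem_add.1 hy
    obtain ⟨u, hu, rfl⟩ := mem_image.1 (h ha)
    exact mem_image.2 ⟨u + i, add_mem_add hu hi, by ring⟩
  exact (card_le_card h1).trans card_image_le

theorem dense (ε K : ℝ) (hε : 0 < ε) : ∃ δ : ℝ, 0 < δ ∧ ∃ p₀ : ℕ, ∀ p : ℕ, p.Prime → p₀ ≤ p →
    ∃ E : Finset (DirichletCharacter ℂ p), (E.card : ℝ) ≤ (p : ℝ) ^ (1 - δ) ∧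
      ∀ χ ∉ E, ∀ D : Finset (ZMod p), (p : ℝ) ^ ε ≤ D.card → ((D + D).card : ℝ) ≤ K * D.card →
        ∀ x y : ZMod p, ∀ A B : Finset (ZMod p), A ⊆ D.image (fun u => u + x) → B ⊆ D.image (fun u => u + y) →
          (p : ℝ) ^ (-δ) * D.card ≤ A.card → (p : ℝ) ^ (-δ) * D.card ≤ B.card →
            ‖∑ a ∈ A, ∑ b ∈ B, χ (a + b)‖ ≤ (p : ℝ) ^ (-δ) * (A.card * B.card) := by
  classical
  obtain ⟨C, d, hC, hcov⟩ := scov (max 1 K) (le_max_left _ _)
  set m : ℕ := ⌈d⌉₊ + 1 with hm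
  have hm0 : (0 : ℝ) < m := by rw [hm]; positivity
  set e : ℝ := min ε 1 with he
  have he0 : 0 < e := lt_min hε one_pos
  set e' : ℝ := e / 2 / m with he'
  have he'0 : 0 < e' := by positivity
  have he'1 : e' ≤ 1 := by
    have h1 : e ≤ 1 := min_le_right _ _
    have h2 : (1 : ℝ) ≤ m := by rw [hm]; push_cast; linarith [Nat.cast_nonneg (α := ℝ) ⌈d⌉₊]
    rw [he', div_le_one hm0]
    linarith
  obtain ⟨τ, hτ, p₁, hp₁⟩ := Pool.Agent.K1H93.PX.part2 e' (e' / 2) he'0 he'1 (by positivity)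
  set δ : ℝ := min (τ / 2) (e' / 2) with hδ
  have hδ0 : 0 < δ := lt_min (by positivity) (by positivity)
  have t1 : ∀ᶠ p : ℕ in Filter.atTop, C * 2 ^ m ≤ (p : ℝ) ^ (e / 2) :=
    ((tendsto_rpow_atTop (by positivity : 0 < e / 2)).comp tendsto_natCast_atTop_atTop).eventually_ge_atTop _
  have t2 : ∀ᶠ p : ℕ in Filter.atTop, 2 * C ^ 2 ≤ (p : ℝ) ^ (τ / 2) :=
    ((tendsto_rpow_atTop (by positivity : 0 < τ / 2)).comp tendsto_natCast_atTop_atTop).eventually_ge_atTop _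
  obtain ⟨p₂, hp₂⟩ := Filter.eventually_atTop.1 (t1.and t2)
  refine ⟨δ, hδ0, max p₁ p₂, fun p hp hpp => ?_⟩
  obtain ⟨E, hE, hχ⟩ := hp₁ p hp ((le_max_left _ _).trans hpp)
  obtain ⟨hb1, hb2⟩ := hp₂ p ((le_max_right _ _).trans hpp)
  have hp1 : (1 : ℝ) ≤ p := by exact_mod_cast hp.one_lt.le
  have hpos : (0 : ℝ) < p := by linarith
  refine ⟨E, hE.trans (Real.rpow_le_rpow_of_exponent_le hp1 ?_), fun χ hχE D hD hDK x y A B hA hB hAD hBD => ?_⟩
  · have : δ ≤ e' / 2 := min_le_right _ _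
    linarith
  have hDc : (0 : ℝ) < D.card := lt_of_lt_of_le (by positivity) hD
  have hDn : D.Nonempty := by
    rw [← card_pos]; exact_mod_cast hDc
  have hDK' : ((D + D).card : ℝ) ≤ max 1 K * D.card :=
    hDK.trans (mul_le_mul_of_nonneg_right (le_max_right _ _) hDc.le)
  obtain ⟨z, hz, N, hN, hI⟩ := prog hp hC (hcov p hp) D hDn hDK'
  rw [← hm] at hN
  have hNe : (p : ℝ) ^ e' ≤ N := by
    have h1 : (p : ℝ) ^ e ≤ (p : ℝ) ^ (e / 2) * (N : ℝ) ^ m := by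
      calc (p : ℝ) ^ e ≤ (p : ℝ) ^ ε := Real.rpow_le_rpow_of_exponent_le hp1 (min_le_left _ _)
        _ ≤ D.card := hD
        _ ≤ C * 2 ^ m * (N : ℝ) ^ m := hN
        _ ≤ (p : ℝ) ^ (e / 2) * (N : ℝ) ^ m := by gcongr
    have h2 : (p : ℝ) ^ e = (p : ℝ) ^ (e / 2) * (p : ℝ) ^ (e / 2) := by
      rw [← Real.rpow_add hpos]; congr 1; ring
    rw [h2] at h1
    have h3 : (p : ℝ) ^ (e / 2) ≤ (N : ℝ) ^ m := le_of_mul_le_mul_left h1 (by positivity)
    have h4 : ((p : ℝ) ^ e') ^ m = (p : ℝ) ^ (e / 2) := by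
      rw [← Real.rpow_natCast, ← Real.rpow_mul hpos.le]
      congr 1
      rw [he']; field_simp
    rw [← h4] at h3
    exact (pow_le_pow_iff_left₀ (by positivity) (Nat.cast_nonneg N) (by omega)).1 h3
  have key : ∀ (A : Finset (ZMod p)) (x : ZMod p), A ⊆ D.image (fun u => u + x) →
      (p : ℝ) ^ (-δ) * D.card ≤ A.card →
      ((A + (range N).image fun i : ℕ => (i : ZMod p) * z).card : ℝ) ≤ (p : ℝ) ^ τ * A.card := by
    intro A x hA hAD
    have h1 : ((A + (range N).image fun i : ℕ => (i : ZMod p) * z).card : ℝ) ≤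
        ((D + (range N).image fun i : ℕ => (i : ZMod p) * z).card : ℝ) := by
      exact_mod_cast grow D _ A x hA
    have h2 : (D.card : ℝ) ≤ (p : ℝ) ^ δ * A.card := by
      have h3 : (p : ℝ) ^ δ * ((p : ℝ) ^ (-δ) * D.card) ≤ (p : ℝ) ^ δ * A.card :=
        mul_le_mul_of_nonneg_left hAD (by positivity)
      rwa [← mul_assoc, ← Real.rpow_add hpos, add_neg_cancel, Real.rpow_zero, one_mul] at h3
    calc ((A + (range N).image fun i : ℕ => (i : ZMod p) * z).card : ℝ) ≤ 2 * C ^ 2 * D.card := h1.trans hI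
      _ ≤ (p : ℝ) ^ (τ / 2) * ((p : ℝ) ^ δ * A.card) := by gcongr
      _ ≤ (p : ℝ) ^ (τ / 2) * ((p : ℝ) ^ (τ / 2) * A.card) := by
          gcongr
          exact min_le_left _ _
      _ = (p : ℝ) ^ τ * A.card := by
          rw [← mul_assoc, ← Real.rpow_add hpos]; congr 2; ring
  refine (hχ χ hχE z hz N hNe A B (key A x hA hAD) (key B y hB hBD)).trans ?_
  have h5 : δ ≤ τ := (min_le_left _ _).trans (by linarith)
  refine mul_le_mul_of_nonneg_right (Real.rpow_le_rpow_of_exponent_le hp1 (by linarith)) (by positivity)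

theorem two_fold {p : ℕ} (A B : Finset (ZMod p)) (hB : B.Nonempty) {K : ℝ} (_hK : 0 ≤ K)
    (h : ((A + B).card : ℝ) ≤ K * B.card) : ((A + A).card : ℝ) ≤ K ^ 2 * B.card := by
  classical
  have h1 := pluennecke_ruzsa_inequality_nsmul_add hB A 2
  rw [two_nsmul] at h1
  have hBc : (0 : ℝ) < B.card := by exact_mod_cast card_pos.2 hB
  have h2 : ((A + A).card : ℝ) ≤ (((B + A).card : ℝ) / B.card) ^ 2 * B.card := by
    have h := (NNRat.cast_le (K := ℝ)).2 h1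
    push_cast at h
    exact h
  refine h2.trans ?_
  rw [add_comm B A]
  have h3 : ((A + B).card : ℝ) / B.card ≤ K := by
    rw [div_le_iff₀ hBc]; exact h
  gcongr

theorem pairs (ε K : ℝ) (hε : 0 < ε) : ∃ δ : ℝ, 0 < δ ∧ ∃ p₀ : ℕ, ∀ p : ℕ, p.Prime → p₀ ≤ p →
    ∃ E : Finset (DirichletCharacter ℂ p), (E.card : ℝ) ≤ (p : ℝ) ^ (1 - δ) ∧
      ∀ χ ∉ E, ∀ A B : Finset (ZMod p), (p : ℝ) ^ ε ≤ A.card → (p : ℝ) ^ ε ≤ B.card →
        ((A + B).card : ℝ) ≤ K * A.card → ((A + B).card : ℝ) ≤ K * B.card →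
          ‖∑ a ∈ A, ∑ b ∈ B, χ (a + b)‖ ≤ (p : ℝ) ^ (-δ) * (A.card * B.card) := by
  classical
  set K' : ℝ := max 1 K with hK'
  have hK1 : 1 ≤ K' := le_max_left _ _
  obtain ⟨δ, hδ, p₁, hp₁⟩ := dense ε (3 * K' ^ 2) hε
  have t1 : ∀ᶠ p : ℕ in Filter.atTop, 2 * K' ≤ (p : ℝ) ^ δ :=
    ((tendsto_rpow_atTop hδ).comp tendsto_natCast_atTop_atTop).eventually_ge_atTop _
  obtain ⟨p₂, hp₂⟩ := Filter.eventually_atTop.1 t1
  refine ⟨δ, hδ, max p₁ p₂, fun p hp hpp => ?_⟩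
  obtain ⟨E, hE, hχ⟩ := hp₁ p hp ((le_max_left _ _).trans hpp)
  have hb := hp₂ p ((le_max_right _ _).trans hpp)
  have hp1 : (1 : ℝ) ≤ p := by exact_mod_cast hp.one_lt.le
  have hpos : (0 : ℝ) < p := by linarith
  refine ⟨E, hE, fun χ hχE A B hA hB hAB hBA => ?_⟩
  have hAc : (0 : ℝ) < A.card := lt_of_lt_of_le (by positivity) hA
  have hBc : (0 : ℝ) < B.card := lt_of_lt_of_le (by positivity) hB
  have hAn : A.Nonempty := by rw [← card_pos]; exact_mod_cast hAc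
  have hBn : B.Nonempty := by rw [← card_pos]; exact_mod_cast hBc
  have hAB' : ((A + B).card : ℝ) ≤ K' * A.card :=
    hAB.trans (mul_le_mul_of_nonneg_right (le_max_right _ _) hAc.le)
  have hBA' : ((A + B).card : ℝ) ≤ K' * B.card :=
    hBA.trans (mul_le_mul_of_nonneg_right (le_max_right _ _) hBc.le)
  have hAA := two_fold A B hBn (by linarith) hBA'
  have hBB := two_fold B A hAn (K := K') (by linarith) (by rw [add_comm B A]; exact hAB')
  have hAD : (A.card : ℝ) ≤ (A ∪ B).card := by exact_mod_cast card_le_card subset_union_left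
  have hBD : (B.card : ℝ) ≤ (A ∪ B).card := by exact_mod_cast card_le_card subset_union_right
  have hDD : (((A ∪ B) + (A ∪ B)).card : ℝ) ≤ 3 * K' ^ 2 * (A ∪ B).card := by
    have h1 : (A ∪ B) + (A ∪ B) ⊆ (A + A) ∪ ((A + B) ∪ (B + B)) := by
      intro x hx
      obtain ⟨a, ha, b, hb, rfl⟩ := mem_add.1 hx
      rw [mem_union, mem_union]
      rcases mem_union.1 ha with ha | ha <;> rcases mem_union.1 hb with hb | hb
      · exact Or.inl (add_mem_add ha hb)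
      · exact Or.inr (Or.inl (add_mem_add ha hb))
      · exact Or.inr (Or.inl (by rw [add_comm a b]; exact add_mem_add hb ha))
      · exact Or.inr (Or.inr (add_mem_add ha hb))
    have h2 : ((A ∪ B) + (A ∪ B)).card ≤ (A + A).card + ((A + B).card + (B + B).card) :=
      (card_le_card h1).trans ((card_union_le _ _).trans (Nat.add_le_add_left (card_union_le _ _) _))
    have h3 : (((A ∪ B) + (A ∪ B)).card : ℝ) ≤ (A + A).card + ((A + B).card + (B + B).card) := by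
      exact_mod_cast h2
    have h4 : K' ≤ K' ^ 2 := by nlinarith
    have h5 : K' ^ 2 * B.card ≤ K' ^ 2 * (A ∪ B).card := by gcongr
    have h6 : K' ^ 2 * A.card ≤ K' ^ 2 * (A ∪ B).card := by gcongr
    have h7 : K' * A.card ≤ K' ^ 2 * (A ∪ B).card := by gcongr
    linarith
  have hsum : ((A ∪ B).card : ℝ) ≤ A.card + B.card := by exact_mod_cast card_union_le A B
  have hBle : (B.card : ℝ) ≤ K' * A.card := by
    have : (B.card : ℝ) ≤ (A + B).card := by exact_mod_cast card_le_card_add_left hAn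
    linarith
  have hAle : (A.card : ℝ) ≤ K' * B.card := by
    have : (A.card : ℝ) ≤ (A + B).card := by exact_mod_cast card_le_card_add_right hBn
    linarith
  have aux : ∀ X : ℝ, 0 ≤ X → ((A ∪ B).card : ℝ) ≤ 2 * K' * X → (p : ℝ) ^ (-δ) * (A ∪ B).card ≤ X := by
    intro X hX h
    calc (p : ℝ) ^ (-δ) * (A ∪ B).card ≤ (p : ℝ) ^ (-δ) * ((p : ℝ) ^ δ * X) := by
          refine mul_le_mul_of_nonneg_left (h.trans ?_) (by positivity)
          exact mul_le_mul_of_nonneg_right hb hX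
      _ = X := by rw [← mul_assoc, ← Real.rpow_add hpos, neg_add_cancel, Real.rpow_zero, one_mul]
  refine hχ χ hχE (A ∪ B) (hA.trans hAD) hDD 0 0 A B ?_ ?_ (aux _ hAc.le (by nlinarith)) (aux _ hBc.le (by nlinarith))
  · intro a ha
    exact mem_image.2 ⟨a, mem_union_left _ ha, add_zero a⟩
  · intro b hb
    exact mem_image.2 ⟨b, mem_union_right _ hb, add_zero b⟩

theorem both (ε K : ℝ) (hε : 0 < ε) : ∃ δ : ℝ, 0 < δ ∧ ∃ p₀ : ℕ, ∀ p : ℕ, p.Prime → p₀ ≤ p →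
      ∃ E : Finset (DirichletCharacter ℂ p), (E.card : ℝ) ≤ (p : ℝ) ^ (1 - δ) ∧ ∀ χ ∉ E,
        (∀ A B : Finset (ZMod p), (p : ℝ) ^ ε ≤ A.card → (p : ℝ) ^ ε ≤ B.card →
          ((A + B).card : ℝ) ≤ K * A.card → ((A + B).card : ℝ) ≤ K * B.card →
            ‖∑ a ∈ A, ∑ b ∈ B, χ (a + b)‖ ≤ (p : ℝ) ^ (-δ) * (A.card * B.card)) ∧
        ∀ D : Finset (ZMod p), (p : ℝ) ^ ε ≤ D.card → ((D + D).card : ℝ) ≤ K * D.card →
          ∀ x y : ZMod p, ∀ A B : Finset (ZMod p), A ⊆ D.image (fun u => u + x) → B ⊆ D.image (fun u => u + y) →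
            (p : ℝ) ^ (-δ) * D.card ≤ A.card → (p : ℝ) ^ (-δ) * D.card ≤ B.card →
              ‖∑ a ∈ A, ∑ b ∈ B, χ (a + b)‖ ≤ (p : ℝ) ^ (-δ) * (A.card * B.card) := by
  classical
  obtain ⟨δ₁, h1, p₁, hp₁⟩ := dense ε K hε
  obtain ⟨δ₂, h2, p₂, hp₂⟩ := pairs ε K hε
  set δ : ℝ := min δ₁ δ₂ / 2 with hδ
  have hδ0 : 0 < δ := by
    have := lt_min h1 h2
    positivity
  have hm1 : min δ₁ δ₂ ≤ δ₁ := min_le_left _ _
  have hm2 : min δ₁ δ₂ ≤ δ₂ := min_le_right _ _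
  have t1 : ∀ᶠ p : ℕ in Filter.atTop, (2 : ℝ) ≤ (p : ℝ) ^ δ :=
    ((tendsto_rpow_atTop hδ0).comp tendsto_natCast_atTop_atTop).eventually_ge_atTop _
  obtain ⟨p₃, hp₃⟩ := Filter.eventually_atTop.1 t1
  refine ⟨δ, hδ0, max p₃ (max p₁ p₂), fun p hp hpp => ?_⟩
  obtain ⟨E₁, hE₁, hχ₁⟩ := hp₁ p hp ((le_max_left _ _).trans ((le_max_right _ _).trans hpp))
  obtain ⟨E₂, hE₂, hχ₂⟩ := hp₂ p hp ((le_max_right _ _).trans ((le_max_right _ _).trans hpp))
  have hb := hp₃ p ((le_max_left _ _).trans hpp)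
  have hq1 : (1 : ℝ) ≤ p := by exact_mod_cast hp.one_lt.le
  have hpos : (0 : ℝ) < p := by linarith
  refine ⟨E₁ ∪ E₂, ?_, fun χ hχ => ⟨fun A B hA hB hAB hBA => ?_, fun D hD hDK x y A B hA hB hAD hBD => ?_⟩⟩
  · have h3 : ((E₁ ∪ E₂).card : ℝ) ≤ E₁.card + E₂.card := by exact_mod_cast card_union_le E₁ E₂
    have h4 : (p : ℝ) ^ (1 - δ₁) ≤ (p : ℝ) ^ (1 - 2 * δ) :=
      Real.rpow_le_rpow_of_exponent_le hq1 (by rw [hδ]; linarith)
    have h5 : (p : ℝ) ^ (1 - δ₂) ≤ (p : ℝ) ^ (1 - 2 * δ) :=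
      Real.rpow_le_rpow_of_exponent_le hq1 (by rw [hδ]; linarith)
    calc ((E₁ ∪ E₂).card : ℝ) ≤ 2 * (p : ℝ) ^ (1 - 2 * δ) := by linarith
      _ ≤ (p : ℝ) ^ δ * (p : ℝ) ^ (1 - 2 * δ) := mul_le_mul_of_nonneg_right hb (by positivity)
      _ = (p : ℝ) ^ (1 - δ) := by rw [← Real.rpow_add hpos]; congr 1; ring
  · refine (hχ₂ χ (fun h => hχ (mem_union_right _ h)) A B hA hB hAB hBA).trans ?_
    exact mul_le_mul_of_nonneg_right (Real.rpow_le_rpow_of_exponent_le hq1 (by rw [hδ]; linarith)) (by positivity)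
  · have h6 : (p : ℝ) ^ (-δ₁) ≤ (p : ℝ) ^ (-δ) :=
      Real.rpow_le_rpow_of_exponent_le hq1 (by rw [hδ]; linarith)
    refine (hχ₁ χ (fun h => hχ (mem_union_left _ h)) D hD hDK x y A B hA hB ?_ ?_).trans ?_
    · exact (mul_le_mul_of_nonneg_right h6 (Nat.cast_nonneg _)).trans hAD
    · exact (mul_le_mul_of_nonneg_right h6 (Nat.cast_nonneg _)).trans hBD
    · exact mul_le_mul_of_nonneg_right h6 (by positivity)

end Pool.Agent.K1H93.QF
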