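import Pool.Agent.K1H93.QF.Line
import Pool.Agent.K1H93.QF.Main

/-!
# The theorem for all pairs of sets which grow little when a common set of small doubling is added
-/

set_option autoImplicit false

namespace Pool.Agent.K1H93.QF

open Finset
open scoped Pointwise

theorem general (ε K : ℝ) (hε : 0 < ε) : ∃ δ : ℝ, 0 < δ ∧ ∃ p₀ : ℕ, ∀ p : ℕ, p.Prime → p₀ ≤ p →
    ∃ E : Finset (DirichletCharacter ℂ p), (E.card : ℝ) ≤ (p : ℝ) ^ (1 - δ) ∧ ∀ χ ∉ E,
      ∀ D : Finset (ZMod p), (p : ℝ) ^ ε ≤ D.card → ((D + D).card : ℝ) ≤ K * D.card → ∀ A B : Finset (ZMod p),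
        ((A + D).card : ℝ) ≤ (p : ℝ) ^ δ * A.card → ((B + D).card : ℝ) ≤ (p : ℝ) ^ δ * B.card →
          ‖∑ a ∈ A, ∑ b ∈ B, χ (a + b)‖ ≤ (p : ℝ) ^ (-δ) * (A.card * B.card) := by
  classical
  obtain ⟨C, d, hC, hcov⟩ := scov (max 1 K) (le_max_left _ _)
  set m : ℕ := ⌈d⌉₊ + 1 with hm
  set k : ℕ := ⌈4 * C ^ 2⌉₊ with hk
  have hm0 : (0 : ℝ) < m := by rw [hm]; positivity
  set e : ℝ := min ε 1 with he
  have he0 : 0 < e := lt_min hε one_pos
  set e' : ℝ := e / 2 / m with he'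
  have he'0 : 0 < e' := by positivity
  have he'1 : e' ≤ 1 := by
    have h1 : e ≤ 1 := min_le_right _ _
    have h2 : (1 : ℝ) ≤ m := by rw [hm]; push_cast; linarith [Nat.cast_nonneg (α := ℝ) ⌈d⌉₊]
    rw [he', div_le_one hm0]
    linarith
  obtain ⟨τ, hτ, p₁, hp₁⟩ := Pool.Agent.K1H93.PX.part2 e' (e' / 2) he'0 he'1 (by positivity)
  set δ : ℝ := min (τ / 2) (e' / 2) with hδ
  have hδ0 : 0 < δ := lt_min (by positivity) (by positivity)
  have t1 : ∀ᶠ p : ℕ in Filter.atTop, C * (2 * k) ^ m ≤ (p : ℝ) ^ (e / 2) :=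
    ((tendsto_rpow_atTop (by positivity : 0 < e / 2)).comp tendsto_natCast_atTop_atTop).eventually_ge_atTop _
  have t2 : ∀ᶠ p : ℕ in Filter.atTop, (max 1 K) ^ (2 * k.factorial + 1) ≤ (p : ℝ) ^ (τ / 2) :=
    ((tendsto_rpow_atTop (by positivity : 0 < τ / 2)).comp tendsto_natCast_atTop_atTop).eventually_ge_atTop _
  have t3 : ∀ᶠ p : ℕ in Filter.atTop, k < p := Filter.eventually_gt_atTop k
  obtain ⟨p₂, hp₂⟩ := Filter.eventually_atTop.1 ((t1.and t2).and t3)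
  refine ⟨δ, hδ0, max p₁ p₂, fun p hp hpp => ?_⟩
  obtain ⟨E, hE, hχ⟩ := hp₁ p hp ((le_max_left _ _).trans hpp)
  obtain ⟨⟨hb1, hb2⟩, hb3⟩ := hp₂ p ((le_max_right _ _).trans hpp)
  have hp1 : (1 : ℝ) ≤ p := by exact_mod_cast hp.one_lt.le
  have hpos : (0 : ℝ) < p := by linarith
  refine ⟨E, hE.trans (Real.rpow_le_rpow_of_exponent_le hp1 ?_), fun χ hχE D hD hDK A B hAD hBD => ?_⟩
  · have : δ ≤ e' / 2 := min_le_right _ _
    linarith
  have hDc : (0 : ℝ) < D.card := lt_of_lt_of_le (by positivity) hD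
  have hDn : D.Nonempty := by
    rw [← card_pos]; exact_mod_cast hDc
  have hDK' : ((D + D).card : ℝ) ≤ max 1 K * D.card :=
    hDK.trans (mul_le_mul_of_nonneg_right (le_max_right _ _) hDc.le)
  obtain ⟨z, hz, N, hN, hI⟩ := prog2 hp hC (hcov p hp) D hDn hDK' k (Nat.le_ceil _) hb3
  rw [← hm] at hN
  have hNe : (p : ℝ) ^ e' ≤ N := by
    have h1 : (p : ℝ) ^ e ≤ (p : ℝ) ^ (e / 2) * (N : ℝ) ^ m := by
      calc (p : ℝ) ^ e ≤ (p : ℝ) ^ ε := Real.rpow_le_rpow_of_exponent_le hp1 (min_le_left _ _)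
        _ ≤ D.card := hD
        _ ≤ C * (2 * k) ^ m * (N : ℝ) ^ m := hN
        _ ≤ (p : ℝ) ^ (e / 2) * (N : ℝ) ^ m := by gcongr
    have h2 : (p : ℝ) ^ e = (p : ℝ) ^ (e / 2) * (p : ℝ) ^ (e / 2) := by
      rw [← Real.rpow_add hpos]; congr 1; ring
    rw [h2] at h1
    have h3 : (p : ℝ) ^ (e / 2) ≤ (N : ℝ) ^ m := le_of_mul_le_mul_left h1 (by positivity)
    have h4 : ((p : ℝ) ^ e') ^ m = (p : ℝ) ^ (e / 2) := by
      rw [← Real.rpow_natCast, ← Real.rpow_mul hpos.le]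
      congr 1
      rw [he']; field_simp
    rw [← h4] at h3
    exact (pow_le_pow_iff_left₀ (by positivity) (Nat.cast_nonneg N) (by omega)).1 h3
  have key : ∀ A : Finset (ZMod p), ((A + D).card : ℝ) ≤ (p : ℝ) ^ δ * A.card →
      ((A + (range N).image fun i : ℕ => (i : ZMod p) * z).card : ℝ) ≤ (p : ℝ) ^ τ * A.card := by
    intro A hAD
    have h1 := growth A D ((range N).image fun i : ℕ => (i : ZMod p) * z) hDn hDK' hAD k.factorial (by
      intro y hy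
      obtain ⟨i, hi, rfl⟩ := mem_image.1 hy
      exact hI i (mem_range.1 hi))
    refine h1.trans (mul_le_mul_of_nonneg_right ?_ (Nat.cast_nonneg _))
    calc (p : ℝ) ^ δ * (max 1 K) ^ (2 * k.factorial + 1) ≤ (p : ℝ) ^ (τ / 2) * (p : ℝ) ^ (τ / 2) := by
          refine mul_le_mul (Real.rpow_le_rpow_of_exponent_le hp1 (min_le_left _ _)) hb2 (by positivity) (by positivity)
      _ = (p : ℝ) ^ τ := by rw [← Real.rpow_add hpos]; congr 1; ring
  refine (hχ χ hχE z hz N hNe A B (key A hAD) (key B hBD)).trans ?_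
  have h5 : δ ≤ τ := (min_le_left _ _).trans (by linarith)
  refine mul_le_mul_of_nonneg_right (Real.rpow_le_rpow_of_exponent_le hp1 (by linarith)) (by positivity)

/-- the general theorem together with its special case of pairs with a small sumset -/
theorem final (ε K : ℝ) (hε : 0 < ε) : ∃ δ : ℝ, 0 < δ ∧ ∃ p₀ : ℕ, ∀ p : ℕ, p.Prime → p₀ ≤ p →
    ∃ E : Finset (DirichletCharacter ℂ p), (E.card : ℝ) ≤ (p : ℝ) ^ (1 - δ) ∧ ∀ χ ∉ E,
      (∀ D : Finset (ZMod p), (p : ℝ) ^ ε ≤ D.card → ((D + D).card : ℝ) ≤ K * D.card → ∀ A B : Finset (ZMod p),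
        ((A + D).card : ℝ) ≤ (p : ℝ) ^ δ * A.card → ((B + D).card : ℝ) ≤ (p : ℝ) ^ δ * B.card →
          ‖∑ a ∈ A, ∑ b ∈ B, χ (a + b)‖ ≤ (p : ℝ) ^ (-δ) * (A.card * B.card)) ∧
      ∀ A B : Finset (ZMod p), (p : ℝ) ^ ε ≤ A.card → (p : ℝ) ^ ε ≤ B.card →
        ((A + B).card : ℝ) ≤ K * A.card → ((A + B).card : ℝ) ≤ K * B.card →
          ‖∑ a ∈ A, ∑ b ∈ B, χ (a + b)‖ ≤ (p : ℝ) ^ (-δ) * (A.card * B.card) := by
  classical
  set K' : ℝ := max 1 K with hK'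
  have hK1 : 1 ≤ K' := le_max_left _ _
  obtain ⟨δ, hδ, p₁, hp₁⟩ := general ε (K' ^ 3) hε
  have t1 : ∀ᶠ p : ℕ in Filter.atTop, K' ^ 3 ≤ (p : ℝ) ^ δ :=
    ((tendsto_rpow_atTop hδ).comp tendsto_natCast_atTop_atTop).eventually_ge_atTop _
  obtain ⟨p₂, hp₂⟩ := Filter.eventually_atTop.1 t1
  refine ⟨δ, hδ, max p₁ p₂, fun p hp hpp => ?_⟩
  obtain ⟨E, hE, hχ⟩ := hp₁ p hp ((le_max_left _ _).trans hpp)
  have hb := hp₂ p ((le_max_right _ _).trans hpp)
  have hp1 : (1 : ℝ) ≤ p := by exact_mod_cast hp.one_lt.le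
  have hpos : (0 : ℝ) < p := by linarith
  have hK3 : K' ≤ K' ^ 3 := le_self_pow₀ hK1 (by norm_num)
  refine ⟨E, hE, fun χ hχE => ⟨fun D hD hDK A B hAD hBD => ?_, fun A B hA hB hAB hBA => ?_⟩⟩
  · refine hχ χ hχE D hD (hDK.trans (mul_le_mul_of_nonneg_right ?_ (Nat.cast_nonneg _))) A B hAD hBD
    exact (le_max_right 1 K).trans hK3
  · have hAc : (0 : ℝ) < A.card := lt_of_lt_of_le (by positivity) hA
    have hBc : (0 : ℝ) < B.card := lt_of_lt_of_le (by positivity) hB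
    have hAn : A.Nonempty := by rw [← card_pos]; exact_mod_cast hAc
    have hBn : B.Nonempty := by rw [← card_pos]; exact_mod_cast hBc
    have hAB' : ((A + B).card : ℝ) ≤ K' * A.card :=
      hAB.trans (mul_le_mul_of_nonneg_right (le_max_right _ _) hAc.le)
    have hBA' : ((A + B).card : ℝ) ≤ K' * B.card :=
      hBA.trans (mul_le_mul_of_nonneg_right (le_max_right _ _) hBc.le)
    have hAA := two_fold A B hBn (by linarith) hBA'
    have hBle : (B.card : ℝ) ≤ K' * A.card := by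
      have : (B.card : ℝ) ≤ (A + B).card := by exact_mod_cast card_le_card_add_left hAn
      linarith
    have hAA3 : ((A + A).card : ℝ) ≤ K' ^ 3 * A.card := by
      calc ((A + A).card : ℝ) ≤ K' ^ 2 * B.card := hAA
        _ ≤ K' ^ 2 * (K' * A.card) := by gcongr
        _ = K' ^ 3 * A.card := by ring
    refine hχ χ hχE A hA hAA3 A B (hAA3.trans (mul_le_mul_of_nonneg_right hb hAc.le)) ?_
    rw [add_comm B A]
    exact hBA'.trans (mul_le_mul_of_nonneg_right (hK3.trans hb) hBc.le)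

end Pool.Agent.K1H93.QF
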