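import Pool.Agent.K1H93.QF.Small

/-!
# A long progression inside an iterated difference set of a set of small doubling
-/

set_option autoImplicit false

namespace Pool.Agent.K1H93.QF

open Finset
open scoped Pointwise

theorem line {p : ℕ} (D F : Finset (ZMod p)) (hFD : F ⊆ D) (c : ZMod p → ℤ) (L k : ℕ) (z : ZMod p)
    (hc : ∀ a ∈ F, |c a| ≤ L) (hz : ∀ a ∈ F, ∀ b ∈ F, a - b = ((c a - c b : ℤ) : ZMod p) * z)
    (hF : 3 * L + 1 < (k + 1) * F.card) (x : ℕ) (hx : k * x ≤ L) :
    -((x : ZMod p) * ((k.factorial : ℕ) * z)) ∈ k.factorial • (D - D) := by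
  classical
  have key : ∃ u ∈ range (k + 1) ×ˢ F, ∃ w ∈ range (k + 1) ×ˢ F, u ≠ w ∧
      c u.2 + (u.1 : ℤ) * x = c w.2 + (w.1 : ℤ) * x := by
    refine exists_ne_map_eq_of_card_lt_of_maps_to (t := Finset.Icc (-(L : ℤ)) (2 * L)) ?_ ?_
    · rw [card_product, card_range, Int.card_Icc]
      omega
    · intro u hu
      have hu' := mem_product.1 (mem_coe.1 hu)
      have h1 := abs_le.1 (hc u.2 hu'.2)
      have h2 := mem_range.1 hu'.1
      have h3 : u.1 * x ≤ k * x := Nat.mul_le_mul_right _ (by omega)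
      have h4 : (u.1 : ℤ) * x ≤ L := by exact_mod_cast h3.trans hx
      have h5 : (0 : ℤ) ≤ (u.1 : ℤ) * x := by positivity
      simp only [coe_Icc, Set.mem_Icc]
      constructor <;> linarith [h1.1, h1.2]
  have h0 : (0 : ZMod p) ∈ D - D := by
    have hn : F.Nonempty := by
      rw [← card_pos]
      by_contra h
      have : F.card = 0 := by omega
      rw [this] at hF; omega
    obtain ⟨a, ha⟩ := hn
    exact mem_sub.2 ⟨a, hFD ha, a, hFD ha, sub_self a⟩
  have main : ∃ e : ℕ, 1 ≤ e ∧ e ≤ k ∧ -(((e * x : ℕ) : ZMod p) * z) ∈ D - D := by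
    obtain ⟨u, hu, w, hw, hne, he⟩ := key
    have hu' := mem_product.1 hu
    have hw' := mem_product.1 hw
    have hu1 := mem_range.1 hu'.1
    have hw1 := mem_range.1 hw'.1
    rcases lt_trichotomy u.1 w.1 with h | h | h
    · refine ⟨w.1 - u.1, by omega, by omega, mem_sub.2 ⟨w.2, hFD hw'.2, u.2, hFD hu'.2, ?_⟩⟩
      have h1 : c w.2 - c u.2 = -(((w.1 - u.1) * x : ℕ) : ℤ) := by
        push_cast [Nat.cast_sub h.le]
        linarith
      rw [hz _ hw'.2 _ hu'.2, h1]
      push_cast
      ring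
    · exfalso
      have h1 : c u.2 = c w.2 := by rw [h] at he; linarith
      have h2 := hz _ hu'.2 _ hw'.2
      rw [h1, sub_self, Int.cast_zero, zero_mul, sub_eq_zero] at h2
      exact hne (Prod.ext h h2)
    · refine ⟨u.1 - w.1, by omega, by omega, mem_sub.2 ⟨u.2, hFD hu'.2, w.2, hFD hw'.2, ?_⟩⟩
      have h1 : c u.2 - c w.2 = -(((u.1 - w.1) * x : ℕ) : ℤ) := by
        push_cast [Nat.cast_sub h.le]
        linarith
      rw [hz _ hu'.2 _ hw'.2, h1]
      push_cast
      ring
  obtain ⟨e, he1, hek, hmem⟩ := main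
  obtain ⟨n, hn⟩ := Nat.dvd_factorial (by omega : 0 < e) hek
  have h1 : -((x : ZMod p) * ((k.factorial : ℕ) * z)) = n • (-(((e * x : ℕ) : ZMod p) * z)) := by
    rw [hn, nsmul_eq_mul]
    push_cast
    ring
  rw [h1]
  have h2 : n ≤ k.factorial := by
    rw [hn]; exact Nat.le_mul_of_pos_left _ (by omega)
  exact nsmul_subset_nsmul_right h0 h2 (nsmul_mem_nsmul hmem)

theorem growth {p : ℕ} (A D I : Finset (ZMod p)) (hD : D.Nonempty) {K M : ℝ} (hK : ((D + D).card : ℝ) ≤ K * D.card)
    (h : ((A + D).card : ℝ) ≤ M * A.card) (n : ℕ) (hI : ∀ i ∈ I, -i ∈ n • (D - D)) :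
    ((A + I).card : ℝ) ≤ M * K ^ (2 * n + 1) * A.card := by
  classical
  have hDc : (0 : ℝ) < D.card := by exact_mod_cast card_pos.2 hD
  have hK0 : 0 ≤ K := by
    by_contra hneg
    have : K * D.card < 0 := mul_neg_of_neg_of_pos (not_le.1 hneg) hDc
    have h2 : (0 : ℝ) ≤ (D + D).card := Nat.cast_nonneg _
    linarith
  have h1 : A + I ⊆ A - n • (D - D) := by
    intro y hy
    obtain ⟨a, ha, i, hi, rfl⟩ := mem_add.1 hy
    exact mem_sub.2 ⟨a, ha, -i, hI i hi, by ring⟩
  have h2 := ruzsa_triangle_inequality_sub_add_add A D (n • (D - D))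
  have h3 : n • (D - D) + D = (n + 1) • D - n • D := by
    rw [nsmul_sub, sub_add_eq_add_sub, ← succ_nsmul]
  have h4 := pluennecke_ruzsa_inequality_nsmul_sub_nsmul_add hD D (n + 1) n
  have h5 : ((n • (D - D) + D).card : ℝ) ≤ K ^ (2 * n + 1) * D.card := by
    rw [h3]
    have h := (NNRat.cast_le (K := ℝ)).2 h4
    push_cast at h
    refine h.trans ?_
    have h6 : ((D + D).card : ℝ) / D.card ≤ K := by
      rw [div_le_iff₀ hDc]; exact hK
    have h7 : n + 1 + n = 2 * n + 1 := by ring
    rw [h7]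
    gcongr
  have h8 : ((A - n • (D - D)).card : ℝ) * D.card ≤ (A + D).card * (n • (D - D) + D).card := by exact_mod_cast h2
  have h9 : ((A + I).card : ℝ) ≤ (A - n • (D - D)).card := by exact_mod_cast card_le_card h1
  have h10 : ((A - n • (D - D)).card : ℝ) * D.card ≤ M * K ^ (2 * n + 1) * A.card * D.card := by
    calc ((A - n • (D - D)).card : ℝ) * D.card ≤ (A + D).card * (n • (D - D) + D).card := h8
      _ ≤ (M * A.card) * (K ^ (2 * n + 1) * D.card) :=
          mul_le_mul h h5 (Nat.cast_nonneg _) ((Nat.cast_nonneg _).trans h)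
      _ = M * K ^ (2 * n + 1) * A.card * D.card := by ring
  exact h9.trans (le_of_mul_le_mul_right h10 hDc)

theorem prog2 {p : ℕ} (hp : p.Prime) {K C d : ℝ} (hC : 1 ≤ C) (hcov : Cov p K C d) (D : Finset (ZMod p))
    (hD : D.Nonempty) (hK : ((D + D).card : ℝ) ≤ K * D.card) (k : ℕ) (hk : 4 * C ^ 2 ≤ k) (hkp : k < p) :
    ∃ z : ZMod p, z ≠ 0 ∧ ∃ N : ℕ, (D.card : ℝ) ≤ C * (2 * k) ^ (⌈d⌉₊ + 1) * (N : ℝ) ^ (⌈d⌉₊ + 1) ∧
      ∀ i : ℕ, i < N → -((i : ZMod p) * z) ∈ k.factorial • (D - D) := by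
  classical
  have : Fact p.Prime := ⟨hp⟩
  have hDp : (0 : ℝ) < D.card := by exact_mod_cast card_pos.2 hD
  have hk4 : (4 : ℝ) ≤ k := by nlinarith
  have hk1 : 1 ≤ k := by
    have : (1 : ℝ) ≤ k := by linarith
    exact_mod_cast this
  have hfac : ((k.factorial : ℕ) : ZMod p) ≠ 0 := by
    rw [Ne, ZMod.natCast_eq_zero_iff, hp.dvd_factorial]
    omega
  have h0 : (0 : ZMod p) ∈ D - D := by
    obtain ⟨a, ha⟩ := hD
    exact mem_sub.2 ⟨a, ha, a, ha, sub_self a⟩
  obtain ⟨κ, v, L, H, T, hκ, hvol, hT, hcv⟩ := hcov D hD hK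
  have hpc : Fact (Nat.card (ZMod p)).Prime := ⟨by rw [Nat.card_zmod]; exact hp⟩
  rcases H.eq_bot_or_eq_top_of_prime_card with hH | hH
  · set L' : Fin κ → ℕ := fun i => if v i = 0 then 0 else L i with hL'
    have hcv' : ∀ a ∈ D, ∃ t ∈ T, ∃ c : Fin κ → ℤ, (∀ i, |c i| ≤ L' i) ∧ a = t + ∑ i, c i • v i := by
      intro a ha
      obtain ⟨t, ht, c, hc, h, hh, e⟩ := hcv a ha
      rw [hH, AddSubgroup.mem_bot] at hh
      refine ⟨t, ht, fun i => if v i = 0 then 0 else c i, fun i => ?_, ?_⟩
      · by_cases hv : v i = 0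
        · simp [hL', hv]
        · simp only [hL', hv, if_false]
          exact hc i
      · rw [e, hh, add_zero]
        congr 1
        refine sum_congr rfl fun i _ => ?_
        by_cases hv : v i = 0
        · simp [hv]
        · simp only [hv, if_false]
    have hvol' : ((∏ i, (2 * L' i + 1) : ℕ) : ℝ) ≤ C * D.card := by
      have h1 : ∏ i, (2 * L' i + 1) ≤ ∏ i, (2 * L i + 1) := by
        refine prod_le_prod (fun i _ => Nat.zero_le _) fun i _ => ?_
        simp only [hL']
        split_ifs <;> omega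
      have h2 : Nat.card H = 1 := by
        rw [hH]; simp
      rw [h2, Nat.cast_one, mul_one] at hvol
      exact (Nat.cast_le.2 h1).trans hvol
    have hDc := box_card v L' T D hcv'
    by_cases hz : ∀ i, L' i = 0
    · refine ⟨1, one_ne_zero, 1, ?_, fun i hi => ?_⟩
      · have h1 : D.card ≤ T.card := by simpa [hz] using hDc
        have h2 : (D.card : ℝ) ≤ C := (Nat.cast_le.2 h1).trans hT
        have h3 : (1 : ℝ) ≤ (2 * k) ^ (⌈d⌉₊ + 1) := one_le_pow₀ (by linarith)
        rw [Nat.cast_one, one_pow, mul_one]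
        nlinarith
      · have h1 : i = 0 := by omega
        rw [h1, Nat.cast_zero, zero_mul, neg_zero]
        exact zero_mem_nsmul h0
    · push Not at hz
      obtain ⟨j, hj⟩ := hz
      obtain ⟨i₀, -, hi₀⟩ := exists_max_image univ L' ⟨j, mem_univ j⟩
      have hi : L' i₀ ≠ 0 := by
        have := hi₀ j (mem_univ j)
        omega
      have hv : v i₀ ≠ 0 := fun h => hi (by simp [hL', h])
      choose! t ht c hc he using hcv'
      set S : Finset (ZMod p × (Fin κ → ℤ)) := T ×ˢ Fintype.piFinset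
        (fun i => if i = i₀ then {0} else Finset.Icc (-(L' i : ℤ)) (L' i)) with hS
      set ky : ZMod p → ZMod p × (Fin κ → ℤ) := fun a => (t a, Function.update (c a) i₀ 0) with hky
      have hmap : ∀ a ∈ D, ky a ∈ S := by
        intro a ha
        refine mem_product.2 ⟨ht a ha, Fintype.mem_piFinset.2 fun i => ?_⟩
        by_cases h : i = i₀
        · subst h; simp [hky]
        · simp only [hky, Function.update_of_ne h, h, if_false, mem_Icc]
          exact abs_le.1 (hc a ha i)
      have hScard : (2 * L' i₀ + 1) * S.card = T.card * ∏ i, (2 * L' i + 1) := by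
        have h1 : S.card = T.card * ∏ i, (if i = i₀ then 1 else 2 * L' i + 1) := by
          rw [hS, card_product, Fintype.card_piFinset]
          congr 1
          refine prod_congr rfl fun i _ => ?_
          by_cases h : i = i₀
          · simp [h]
          · simp only [h, if_false]
            rw [Int.card_Icc]
            omega
        have h2 : ∏ i, (2 * L' i + 1) = (2 * L' i₀ + 1) * ∏ i, (if i = i₀ then 1 else 2 * L' i + 1) := by
          calc ∏ i, (2 * L' i + 1) = ∏ i, ((if i = i₀ then 2 * L' i₀ + 1 else 1) *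
                (if i = i₀ then 1 else 2 * L' i + 1)) := by
                refine prod_congr rfl fun i _ => ?_
                by_cases h : i = i₀
                · simp [h]
                · simp [h]
            _ = _ := by rw [prod_mul_distrib]; simp
        rw [h1, h2]; ring
      have hfib : ∃ y ∈ S, 3 * L' i₀ + 1 < (k + 1) * (D.filter fun a => ky a = y).card := by
        by_contra hcon
        push Not at hcon
        have h1 : D.card = ∑ y ∈ S, (D.filter fun a => ky a = y).card :=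
          card_eq_sum_card_fiberwise hmap
        have h2 : (k + 1) * D.card ≤ S.card * (3 * L' i₀ + 1) := by
          rw [h1, mul_sum]
          calc ∑ y ∈ S, (k + 1) * (D.filter fun a => ky a = y).card ≤ ∑ _y ∈ S, (3 * L' i₀ + 1) :=
                sum_le_sum fun y hy => hcon y hy
            _ = S.card * (3 * L' i₀ + 1) := by rw [sum_const, smul_eq_mul]
        have h3 : S.card * (3 * L' i₀ + 1) ≤ 2 * (T.card * ∏ i, (2 * L' i + 1)) := by
          rw [← hScard]
          nlinarith [Nat.zero_le (S.card * L' i₀), Nat.zero_le S.card]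
        have h4 : ((k : ℝ) + 1) * D.card ≤ 2 * (C * (C * D.card)) := by
          calc ((k : ℝ) + 1) * D.card ≤ 2 * (T.card * ((∏ i, (2 * L' i + 1) : ℕ) : ℝ)) := by
                exact_mod_cast h2.trans h3
            _ ≤ 2 * (C * (C * D.card)) := by gcongr
        have h5 : 2 * (C * (C * D.card)) < ((k : ℝ) + 1) * D.card := by
          have : 2 * C ^ 2 < (k : ℝ) + 1 := by nlinarith
          calc 2 * (C * (C * D.card)) = 2 * C ^ 2 * D.card := by ring
            _ < ((k : ℝ) + 1) * D.card := mul_lt_mul_of_pos_right this hDp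
        linarith
      obtain ⟨y, hy, hF⟩ := hfib
      refine ⟨(k.factorial : ℕ) * v i₀, mul_ne_zero hfac hv, L' i₀ / k + 1, ?_, fun x hx => ?_⟩
      · have h1 : ∏ i, (2 * L' i + 1) ≤ (2 * (L' i₀ + 1)) ^ κ := by
          calc ∏ i, (2 * L' i + 1) ≤ ∏ _i : Fin κ, (2 * (L' i₀ + 1)) := by
                refine prod_le_prod (fun i _ => Nat.zero_le _) fun i _ => ?_
                have := hi₀ i (mem_univ i)
                omega
            _ = (2 * (L' i₀ + 1)) ^ κ := by simp
        have hk' : κ ≤ ⌈d⌉₊ + 1 := by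
          have h3 : (κ : ℝ) ≤ ⌈d⌉₊ := hκ.trans (Nat.le_ceil d)
          have h4 : κ ≤ ⌈d⌉₊ := by exact_mod_cast h3
          omega
        have h2 : (2 * (L' i₀ + 1)) ^ κ ≤ (2 * (L' i₀ + 1)) ^ (⌈d⌉₊ + 1) :=
          Nat.pow_le_pow_right (by omega) hk'
        have h5 : L' i₀ + 1 ≤ k * (L' i₀ / k + 1) := Nat.lt_mul_div_succ (L' i₀) hk1
        have h6 : (2 * (L' i₀ + 1)) ^ (⌈d⌉₊ + 1) ≤ (2 * k * (L' i₀ / k + 1)) ^ (⌈d⌉₊ + 1) :=
          Nat.pow_le_pow_left (by nlinarith) _
        have h3 : (D.card : ℝ) ≤ T.card * ((2 * k * ((L' i₀ / k + 1 : ℕ) : ℝ)) ^ (⌈d⌉₊ + 1)) := by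
          have : D.card ≤ T.card * (2 * k * (L' i₀ / k + 1)) ^ (⌈d⌉₊ + 1) :=
            hDc.trans (Nat.mul_le_mul_left _ (h1.trans (h2.trans h6)))
          exact_mod_cast this
        rw [mul_pow (2 * (k : ℝ))] at h3
        rw [mul_assoc]
        exact h3.trans (mul_le_mul_of_nonneg_right hT (by positivity))
      · refine line D (D.filter fun a => ky a = y) (filter_subset _ _) (fun a => c a i₀) (L' i₀) k (v i₀) ?_ ?_ hF x ?_
        · intro a ha
          exact hc a (mem_filter.1 ha).1 i₀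
        · intro a ha b hb
          have ha' := mem_filter.1 ha
          have hb' := mem_filter.1 hb
          have hab : ky a = ky b := ha'.2.trans hb'.2.symm
          have h1 : t a = t b := congrArg Prod.fst hab
          have h2 : ∀ i, i ≠ i₀ → c a i = c b i := by
            intro i hi
            have h3 := congrFun (congrArg Prod.snd hab) i
            simpa only [hky, Function.update_of_ne hi] using h3
          have h4 : a - b = ∑ i, (c a i - c b i) • v i := by
            conv_lhs => rw [he a ha'.1, he b hb'.1]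
            rw [h1]
            simp_rw [sub_smul]
            rw [sum_sub_distrib]
            abel
          rw [h4, sum_eq_single i₀]
          · rw [zsmul_eq_mul]
          · intro i _ hi
            rw [h2 i hi, sub_self, zero_smul]
          · intro h; exact absurd (mem_univ _) h
        · have h1 : x ≤ L' i₀ / k := by omega
          have h2 := (Nat.le_div_iff_mul_le hk1).1 h1
          rw [mul_comm]; exact h2
  · have h1 : (p : ℝ) ≤ C * D.card := by
      have h2 : Nat.card H = p := by rw [hH]; simp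
      rw [h2] at hvol
      have h3 : (1 : ℝ) ≤ ((∏ i, (2 * L i + 1) : ℕ) : ℝ) := by
        have : 1 ≤ ∏ i, (2 * L i + 1) := Nat.one_le_iff_ne_zero.2 (prod_ne_zero_iff.2 fun i _ => by omega)
        exact_mod_cast this
      have h4 : (0 : ℝ) ≤ p := Nat.cast_nonneg p
      nlinarith
    have hp1 : (2 : ℝ) ≤ p := by exact_mod_cast hp.two_le
    have hF : 3 * p + 1 < (k + 1) * D.card := by
      have h2 : C * ((3 : ℝ) * p + 1) < C * (((k : ℝ) + 1) * D.card) := by
        have h3 : ((k : ℝ) + 1) * p ≤ ((k : ℝ) + 1) * (C * D.card) := by gcongr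
        have h4 : (4 * C ^ 2 + 1) * (p : ℝ) ≤ ((k : ℝ) + 1) * p := by gcongr
        have h5 : C * ((3 : ℝ) * p + 1) < (4 * C ^ 2 + 1) * (p : ℝ) := by
          have h6 : C * ((3 : ℝ) * p + 1) ≤ C * (4 * p - 1) + 0 := by nlinarith
          have h7 : C * (4 * (p : ℝ) - 1) ≤ C * C * (4 * p) := by nlinarith
          nlinarith
        calc C * ((3 : ℝ) * p + 1) < (4 * C ^ 2 + 1) * (p : ℝ) := h5
          _ ≤ ((k : ℝ) + 1) * p := h4
          _ ≤ ((k : ℝ) + 1) * (C * D.card) := h3
          _ = C * (((k : ℝ) + 1) * D.card) := by ring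
      have h3 := lt_of_mul_lt_mul_left h2 (by linarith : (0 : ℝ) ≤ C)
      exact_mod_cast h3
    refine ⟨(k.factorial : ℕ) * 1, mul_ne_zero hfac one_ne_zero, p / k + 1, ?_, fun x hx => ?_⟩
    · have h2 : D.card ≤ p := (card_le_univ D).trans (by rw [ZMod.card])
      have h5 : p < k * (p / k + 1) := Nat.lt_mul_div_succ p hk1
      have h6 : D.card ≤ 2 * k * (p / k + 1) := by nlinarith
      have h7 : 2 * k * (p / k + 1) ≤ (2 * k * (p / k + 1)) ^ (⌈d⌉₊ + 1) := Nat.le_self_pow (by omega) _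
      have h3 : (D.card : ℝ) ≤ (2 * k * ((p / k + 1 : ℕ) : ℝ)) ^ (⌈d⌉₊ + 1) := by exact_mod_cast h6.trans h7
      rw [mul_pow (2 * (k : ℝ))] at h3
      have h8 : (0 : ℝ) ≤ (2 * k) ^ (⌈d⌉₊ + 1) * ((p / k + 1 : ℕ) : ℝ) ^ (⌈d⌉₊ + 1) := by positivity
      nlinarith
    · refine line D D (Subset.refl _) (fun a => (a.val : ℤ)) p k 1 ?_ ?_ hF x ?_
      · intro a _
        rw [abs_of_nonneg (by positivity)]
        exact_mod_cast (ZMod.val_lt a).le
      · intro a _ b _
        push_cast
        simp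
      · have h1 : x ≤ p / k := by omega
        have h2 := (Nat.le_div_iff_mul_le hk1).1 h1
        rw [mul_comm]; exact h2

end Pool.Agent.K1H93.QF
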