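import Mathlib
import Pool.Agent.K1H93.PX.Fin

/-!
# From coset progressions to one long arithmetic progression, and the theorem for sets of small doubling
-/

set_option autoImplicit false

namespace Pool.Agent.K1H93.QF

open Finset
open scoped Pointwise

/-- covering of the sets of doubling `K` by `C` translates of a coset progression of rank at most `d` -/
def Cov (p : ℕ) (K C d : ℝ) : Prop :=
  ∀ A : Finset (ZMod p), A.Nonempty → ((A + A).card : ℝ) ≤ K * A.card →
    ∃ (k : ℕ) (v : Fin k → ZMod p) (L : Fin k → ℕ) (H₀ : AddSubgroup (ZMod p)) (T : Finset (ZMod p)),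
      (k : ℝ) ≤ d ∧ ((∏ i, (2 * L i + 1) : ℕ) : ℝ) * (Nat.card H₀ : ℝ) ≤ C * A.card ∧ (T.card : ℝ) ≤ C ∧
      ∀ a ∈ A, ∃ t ∈ T, ∃ c : Fin k → ℤ, (∀ i, |c i| ≤ L i) ∧ ∃ h ∈ H₀, a = t + ∑ i, c i • v i + h

/-- the covering theorem, uniformly in the prime -/
def SCov : Prop := ∀ K : ℝ, 1 ≤ K → ∃ C d : ℝ, 1 ≤ C ∧ ∀ p : ℕ, p.Prime → Cov p K C d

theorem box_card {p : ℕ} {k : ℕ} (v : Fin k → ZMod p) (L : Fin k → ℕ) (T D : Finset (ZMod p))
    (h : ∀ a ∈ D, ∃ t ∈ T, ∃ c : Fin k → ℤ, (∀ i, |c i| ≤ L i) ∧ a = t + ∑ i, c i • v i) :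
    D.card ≤ T.card * ∏ i, (2 * L i + 1) := by
  classical
  have h1 : D ⊆ (T ×ˢ Fintype.piFinset fun i => Finset.Icc (-(L i : ℤ)) (L i)).image
      fun x => x.1 + ∑ i, x.2 i • v i := by
    intro a ha
    obtain ⟨t, ht, c, hc, rfl⟩ := h a ha
    exact mem_image.2 ⟨(t, c), mem_product.2 ⟨ht, Fintype.mem_piFinset.2 fun i => mem_Icc.2 (abs_le.1 (hc i))⟩, rfl⟩
  refine (card_le_card h1).trans (card_image_le.trans ?_)
  rw [card_product, Fintype.card_piFinset]
  refine le_of_eq ?_
  congr 1
  refine prod_congr rfl fun i _ => ?_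
  rw [Int.card_Icc]
  omega

theorem prog {p : ℕ} (hp : p.Prime) {K C d : ℝ} (hC : 1 ≤ C) (hcov : Cov p K C d) (D : Finset (ZMod p))
    (hD : D.Nonempty) (hK : ((D + D).card : ℝ) ≤ K * D.card) :
    ∃ z : ZMod p, z ≠ 0 ∧ ∃ N : ℕ, (D.card : ℝ) ≤ C * 2 ^ (⌈d⌉₊ + 1) * (N : ℝ) ^ (⌈d⌉₊ + 1) ∧
      ((D + (range N).image fun i : ℕ => (i : ZMod p) * z).card : ℝ) ≤ 2 * C ^ 2 * D.card := by
  classical
  have : Fact p.Prime := ⟨hp⟩
  have hDp : (0 : ℝ) < D.card := by exact_mod_cast card_pos.2 hD
  have h2d : (1 : ℝ) ≤ 2 ^ (⌈d⌉₊ + 1) := one_le_pow₀ (by norm_num)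
  have hCC : C ≤ 2 * C ^ 2 := by nlinarith
  obtain ⟨k, v, L, H, T, hk, hvol, hT, hcv⟩ := hcov D hD hK
  have hpc : Fact (Nat.card (ZMod p)).Prime := ⟨by rw [Nat.card_zmod]; exact hp⟩
  rcases H.eq_bot_or_eq_top_of_prime_card with hH | hH
  · set L' : Fin k → ℕ := fun i => if v i = 0 then 0 else L i with hL'
    have hcv' : ∀ a ∈ D, ∃ t ∈ T, ∃ c : Fin k → ℤ, (∀ i, |c i| ≤ L' i) ∧ a = t + ∑ i, c i • v i := by
      intro a ha
      obtain ⟨t, ht, c, hc, h, hh, e⟩ := hcv a ha
      rw [hH, AddSubgroup.mem_bot] at hh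
      refine ⟨t, ht, fun i => if v i = 0 then 0 else c i, fun i => ?_, ?_⟩
      · by_cases hv : v i = 0
        · simp [hL', hv]
        · simp only [hL', hv, if_false]
          exact hc i
      · rw [e, hh, add_zero]
        congr 1
        refine sum_congr rfl fun i _ => ?_
        by_cases hv : v i = 0
        · simp [hv]
        · simp only [hv, if_false]
    have hvol' : ((∏ i, (2 * L' i + 1) : ℕ) : ℝ) ≤ C * D.card := by
      have h1 : ∏ i, (2 * L' i + 1) ≤ ∏ i, (2 * L i + 1) := by
        refine prod_le_prod (fun i _ => Nat.zero_le _) fun i _ => ?_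
        simp only [hL']
        split_ifs <;> omega
      have h2 : Nat.card H = 1 := by
        rw [hH]; simp
      rw [h2, Nat.cast_one, mul_one] at hvol
      exact (Nat.cast_le.2 h1).trans hvol
    have hDc := box_card v L' T D hcv'
    by_cases hz : ∀ i, L' i = 0
    · refine ⟨1, one_ne_zero, 1, ?_, ?_⟩
      · have h1 : D.card ≤ T.card := by simpa [hz] using hDc
        have h2 : (D.card : ℝ) ≤ C := (Nat.cast_le.2 h1).trans hT
        rw [Nat.cast_one, one_pow, mul_one]
        nlinarith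
      · have h1 : (D + (range 1).image fun i : ℕ => (i : ZMod p) * 1) = D := by
          have : ((range 1).image fun i : ℕ => (i : ZMod p) * 1) = 0 := by
            ext x; simp
          rw [this, add_zero]
        rw [h1]
        nlinarith
    · push Not at hz
      obtain ⟨j, hj⟩ := hz
      obtain ⟨i₀, -, hi₀⟩ := exists_max_image univ L' ⟨j, mem_univ j⟩
      have hi : L' i₀ ≠ 0 := by
        have := hi₀ j (mem_univ j)
        omega
      have hv : v i₀ ≠ 0 := fun h => hi (by simp [hL', h])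
      refine ⟨v i₀, hv, L' i₀ + 1, ?_, ?_⟩
      · have h1 : ∏ i, (2 * L' i + 1) ≤ (2 * (L' i₀ + 1)) ^ k := by
          calc ∏ i, (2 * L' i + 1) ≤ ∏ _i : Fin k, (2 * (L' i₀ + 1)) := by
                refine prod_le_prod (fun i _ => Nat.zero_le _) fun i _ => ?_
                have := hi₀ i (mem_univ i)
                omega
            _ = (2 * (L' i₀ + 1)) ^ k := by simp
        have hk' : k ≤ ⌈d⌉₊ + 1 := by
          have h3 : (k : ℝ) ≤ ⌈d⌉₊ := hk.trans (Nat.le_ceil d)
          have h4 : k ≤ ⌈d⌉₊ := by exact_mod_cast h3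
          omega
        have h2 : (2 * (L' i₀ + 1)) ^ k ≤ (2 * (L' i₀ + 1)) ^ (⌈d⌉₊ + 1) :=
          Nat.pow_le_pow_right (by omega) hk'
        have h3 : (D.card : ℝ) ≤ T.card * ((2 * ((L' i₀ + 1 : ℕ) : ℝ)) ^ (⌈d⌉₊ + 1)) := by
          have : D.card ≤ T.card * (2 * (L' i₀ + 1)) ^ (⌈d⌉₊ + 1) :=
            hDc.trans (Nat.mul_le_mul_left _ (h1.trans h2))
          exact_mod_cast this
        rw [mul_pow] at h3
        rw [mul_assoc]
        exact h3.trans (mul_le_mul_of_nonneg_right hT (by positivity))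
      · set L'' : Fin k → ℕ := fun i => if i = i₀ then 2 * L' i₀ else L' i with hL''
        have h1 := box_card v L'' T (D + (range (L' i₀ + 1)).image fun i : ℕ => (i : ZMod p) * v i₀) ?_
        · have h2 : ∏ i, (2 * L'' i + 1) ≤ 2 * ∏ i, (2 * L' i + 1) := by
            calc ∏ i, (2 * L'' i + 1) ≤ ∏ i, ((if i = i₀ then 2 else 1) * (2 * L' i + 1)) := by
                  refine prod_le_prod (fun i _ => Nat.zero_le _) fun i _ => ?_
                  simp only [hL'']
                  by_cases h : i = i₀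
                  · subst h; simp only [if_true]; omega
                  · simp only [h, if_false, one_mul]; exact le_rfl
              _ = 2 * ∏ i, (2 * L' i + 1) := by
                  rw [prod_mul_distrib]; simp
          have h3 : ((D + (range (L' i₀ + 1)).image fun i : ℕ => (i : ZMod p) * v i₀).card : ℝ) ≤
              T.card * (2 * ((∏ i, (2 * L' i + 1) : ℕ) : ℝ)) := by
            have := h1.trans (Nat.mul_le_mul_left _ h2)
            exact_mod_cast this
          refine h3.trans ?_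
          calc (T.card : ℝ) * (2 * ((∏ i, (2 * L' i + 1) : ℕ) : ℝ)) ≤ C * (2 * (C * D.card)) := by
                gcongr
            _ = 2 * C ^ 2 * D.card := by ring
        · intro x hx
          obtain ⟨a, ha, y, hy, rfl⟩ := mem_add.1 hx
          obtain ⟨n, hn, rfl⟩ := mem_image.1 hy
          obtain ⟨t, ht, c, hc, rfl⟩ := hcv' a ha
          have hn' := mem_range.1 hn
          refine ⟨t, ht, fun i => c i + (if i = i₀ then (n : ℤ) else 0), fun i => ?_, ?_⟩
          · by_cases h : i = i₀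
            · subst h
              simp only [hL'', if_true]
              have h4 := abs_le.1 (hc i)
              rw [abs_le]
              push_cast
              constructor <;> omega
            · simp only [hL'', h, if_false, add_zero]
              exact hc i
          · rw [add_assoc]
            congr 1
            simp_rw [add_smul]
            rw [sum_add_distrib]
            congr 1
            simp only [ite_smul, zero_smul, sum_ite_eq', mem_univ, if_true]
            rw [zsmul_eq_mul]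
            push_cast
            rfl
  · have h1 : (p : ℝ) ≤ C * D.card := by
      have h2 : Nat.card H = p := by rw [hH]; simp
      rw [h2] at hvol
      have h3 : (1 : ℝ) ≤ ((∏ i, (2 * L i + 1) : ℕ) : ℝ) := by
        have : 1 ≤ ∏ i, (2 * L i + 1) := Nat.one_le_iff_ne_zero.2 (prod_ne_zero_iff.2 fun i _ => by omega)
        exact_mod_cast this
      have h4 : (0 : ℝ) ≤ p := Nat.cast_nonneg p
      nlinarith
    have hp1 : (1 : ℝ) ≤ p := by exact_mod_cast hp.one_lt.le
    refine ⟨1, one_ne_zero, p, ?_, ?_⟩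
    · have h2 : D.card ≤ p := (card_le_univ D).trans (by rw [ZMod.card])
      have h3 : (D.card : ℝ) ≤ p := by exact_mod_cast h2
      have h4 : (p : ℝ) ≤ (p : ℝ) ^ (⌈d⌉₊ + 1) := le_self_pow₀ hp1 (by omega)
      have h5 : (1 : ℝ) ≤ C * 2 ^ (⌈d⌉₊ + 1) := by nlinarith
      have h6 : (0 : ℝ) ≤ (p : ℝ) ^ (⌈d⌉₊ + 1) := by positivity
      nlinarith
    · have h2 : (D + (range p).image fun i : ℕ => (i : ZMod p) * 1).card ≤ p :=
        (card_le_univ _).trans (by rw [ZMod.card])
      have h3 : ((D + (range p).image fun i : ℕ => (i : ZMod p) * 1).card : ℝ) ≤ p := by exact_mod_cast h2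
      refine (h3.trans h1).trans ?_
      gcongr

end Pool.Agent.K1H93.QF
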